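import Pool.Agent.TH755.PO.Run

/-!
# The key inequality for translations with calls to a total search problem
-/

set_option autoImplicit false

namespace Pool.Agent.TH755.PO

open MeasureTheory Pool.Agent.NPC Pool.Agent.H628R3.RO

/-- Either the algorithm `M` proves the statement `code n j`, or the search problem is not total. -/
def ErrB (M V : Alg) (p : Polynomial ℕ) (n j : ℕ) : Set Oracle := ErrP M n j ∪ ErrF V p n

/-- In time bounded by a small power of `2 ^ n`, and with calls to the search problem given by `V`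
and `p`, a proof of `code n j` is found. -/
def GoodR (M V : Alg) (p : Polynomial ℕ) (H : Alg) (q : Polynomial ℕ) (k n j : ℕ) : Set Oracle :=
  {A | ∃ m : ℕ, m ^ k < 2 ^ n ∧
    Run (TT V p A) (FF H A) (pairBits (List.replicate (n + 2) true) (List.replicate m true))
      (q.eval (n + 2 + m)) {v | M.out A (pairBits (code n j) v) = some (code n j)}
      (q.eval (n + 2 + m)) []}

theorem check_B (M V : Alg) (p : Polynomial ℕ) : ∃ b, Check BadS (ErrB M V p) b := by
  obtain ⟨b1, hb1⟩ := loc_ErrP M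
  obtain ⟨b0, hb0⟩ := loc_ErrF V p
  refine ⟨(b0 + p + b1) + Polynomial.C 3 * Polynomial.X + Polynomial.C 2, ?_⟩
  have hle : ∀ m, m ≤ ((b0 + p + b1) + Polynomial.C 3 * Polynomial.X + Polynomial.C 2).eval m := by
    intro m
    simp only [Polynomial.eval_add, Polynomial.eval_mul, Polynomial.eval_C, Polynomial.eval_X]
    omega
  have hle' : ∀ m, p.eval m ≤
      ((b0 + p + b1) + Polynomial.C 3 * Polynomial.X + Polynomial.C 2).eval m := by
    intro m
    simp only [Polynomial.eval_add]
    omega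
  refine ⟨hle, fun n j => ?_, fun n j hj => (loc_BadS n j).monoE
    fun x hx => spots_bound (length_le_spotsS hj x hx) (b0 + p + b1), ?_, pBad_S _ hle⟩
  · have h1 : Loc {x : List Bool | x.length ≤
        ((b0 + p + b1) + Polynomial.C 3 * Polynomial.X + Polynomial.C 2).eval (2 ^ n)}
        (ErrP M n j) := (hb1 n j).monoE fun x hx => by
      simp only [Set.mem_ofPred_eq, Polynomial.eval_add] at hx ⊢
      omega
    have h2 : Loc {x : List Bool | x.length ≤
        ((b0 + p + b1) + Polynomial.C 3 * Polynomial.X + Polynomial.C 2).eval (2 ^ n)}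
        (ErrF V p n) := (hb0 n).monoE fun x hx => by
      simp only [Set.mem_ofPred_eq, Polynomial.eval_add] at hx ⊢
      omega
    exact fun A A' h => or_congr (h1 A A' h) (h2 A A' h)
  · obtain ⟨f1, hf1, hp1⟩ := pErr_P M _ hle
    obtain ⟨f2, hf2, hp2⟩ := pErr_F V p _ hle hle'
    refine ⟨fun S n j => f1 S n j || f2 S n j, fun S n j => ?_, fun hS hn hj hN h =>
      Poly.or (hp1 hS hn hj hN h) (hp2 hS hn hj hN h)⟩
    rw [Bool.or_eq_true, hf1, hf2]
    exact Iff.rfl

/-! ### The bounds -/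

/-- the length of the calls -/
noncomputable def cP (q : Polynomial ℕ) : Polynomial ℕ :=
  q.comp (Polynomial.X + Polynomial.C 2)

/-- the length of the inputs of the algorithm -/
noncomputable def LbP (q p : Polynomial ℕ) : Polynomial ℕ :=
  Polynomial.C 2 * (Polynomial.C 2 * Polynomial.X + Polynomial.C 5) + Polynomial.C 1 +
    cP q * (Polynomial.C 2 * p.comp (cP q) + Polynomial.C 1)

/-- the length of the proofs -/
noncomputable def UP (q p bl : Polynomial ℕ) : Polynomial ℕ :=
  Polynomial.C 4 * Polynomial.X + Polynomial.C 3 + bl.comp (LbP q p)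

/-- the number of questions -/
noncomputable def costP (M V : Alg) (p : Polynomial ℕ) (H : Alg) (q bl : Polynomial ℕ) :
    Polynomial ℕ :=
  cP q * (H.p.comp (LbP q p) + V.p.comp (Polynomial.C 2 * cP q + Polynomial.C 1 + p.comp (cP q))) +
    M.p.comp (UP q p bl)

/-- everything -/
noncomputable def DP (M V : Alg) (p : Polynomial ℕ) (H : Alg) (q bl : Polynomial ℕ) :
    Polynomial ℕ :=
  (Polynomial.X + Polynomial.C 1) * costP M V p H q bl + cP q + UP q p bl

theorem eval_cP (q : Polynomial ℕ) (N : ℕ) : (cP q).eval N = q.eval (N + 2) := by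
  simp [cP, Polynomial.eval_comp]

theorem eval_LbP (q p : Polynomial ℕ) (N : ℕ) : (LbP q p).eval N =
    2 * (2 * N + 5) + 1 + q.eval (N + 2) * (2 * p.eval (q.eval (N + 2)) + 1) := by
  simp only [LbP, Polynomial.eval_add, Polynomial.eval_mul, Polynomial.eval_C, Polynomial.eval_X,
    Polynomial.eval_comp, eval_cP]

theorem eval_UP (q p bl : Polynomial ℕ) (N : ℕ) :
    (UP q p bl).eval N = 4 * N + 3 + bl.eval ((LbP q p).eval N) := by
  simp only [UP, Polynomial.eval_add, Polynomial.eval_mul, Polynomial.eval_C, Polynomial.eval_X,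
    Polynomial.eval_comp]

theorem eval_costP (M V : Alg) (p : Polynomial ℕ) (H : Alg) (q bl : Polynomial ℕ) (N : ℕ) :
    (costP M V p H q bl).eval N = q.eval (N + 2) * (H.p.eval ((LbP q p).eval N) +
      V.p.eval (2 * q.eval (N + 2) + 1 + p.eval (q.eval (N + 2)))) +
      M.p.eval ((UP q p bl).eval N) := by
  simp only [costP, Polynomial.eval_add, Polynomial.eval_mul, Polynomial.eval_C,
    Polynomial.eval_comp, eval_cP]

theorem eval_DP (M V : Alg) (p : Polynomial ℕ) (H : Alg) (q bl : Polynomial ℕ) (N : ℕ) :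
    (DP M V p H q bl).eval N = (N + 1) * (costP M V p H q bl).eval N + q.eval (N + 2) +
      (UP q p bl).eval N := by
  simp only [DP, Polynomial.eval_add, Polynomial.eval_mul, Polynomial.eval_C, Polynomial.eval_X,
    eval_cP]

theorem length_input (n m : ℕ) :
    (pairBits (List.replicate (n + 2) true) (List.replicate m true)).length = 2 * n + 5 + m := by
  rw [length_pairBits, List.length_replicate, List.length_replicate]
  omega

theorem start_bound (q p : Polynomial ℕ) {n m N : ℕ} (hN : n + m ≤ N) :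
    2 * (pairBits (List.replicate (n + 2) true) (List.replicate m true)).length + 1 +
      ([] : List Bool).length + q.eval (n + 2 + m) * (2 * p.eval (q.eval (n + 2 + m)) + 1) ≤
      (LbP q p).eval N := by
  rw [length_input, eval_LbP, List.length_nil]
  have h1 : q.eval (n + 2 + m) ≤ q.eval (N + 2) := eval_mono q (by omega)
  have h2 := eval_mono p h1
  have h3 : q.eval (n + 2 + m) * (2 * p.eval (q.eval (n + 2 + m)) + 1) ≤
      q.eval (N + 2) * (2 * p.eval (q.eval (N + 2)) + 1) :=
    Nat.mul_le_mul h1 (by omega)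
  omega

/-! ### Locality -/

theorem loc_GoodR (M V : Alg) (p : Polynomial ℕ) (H : Alg) (q : Polynomial ℕ) {k : ℕ}
    (hk : 1 ≤ k) : ∃ b : ℕ → ℕ → ℕ, ∀ n j, Loc {x | x.length ≤ b n j} (GoodR M V p H q k n j) := by
  obtain ⟨bl, hbl⟩ := H.out_length
  obtain ⟨qh, hqh⟩ := H.out_congr
  obtain ⟨qv, hqv⟩ := V.out_congr
  obtain ⟨qm, hqm⟩ := M.out_congr
  refine ⟨fun n j => qh.eval ((LbP q p).eval (n + 2 ^ n)) +
    qv.eval (2 * q.eval (n + 2 ^ n + 2) + 1 + p.eval (q.eval (n + 2 ^ n + 2))) +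
    qm.eval (2 * (code n j).length + 1 + bl.eval ((LbP q p).eval (n + 2 ^ n))),
    fun n j => loc_of_imp fun A A' h => ?_⟩
  rintro ⟨m, hm, hrun⟩
  refine ⟨m, hm, ?_⟩
  have hm2 : m ≤ 2 ^ n := (Nat.le_self_pow (by omega) m).trans hm.le
  have hc : q.eval (n + 2 + m) ≤ q.eval (n + 2 ^ n + 2) := eval_mono q (by omega)
  refine run_imp H V p bl hbl _ _ ((LbP q p).eval (n + 2 ^ n)) A A' ?_ ?_ _ _ ?_ _ _
    (start_bound q p (by omega)) hrun
  · intro s hs
    refine hqh A A' s _ hs fun x hx => h x ?_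
    simp only [Set.mem_ofPred_eq]
    omega
  · intro s hs
    refine hqv A A' s (2 * q.eval (n + 2 ^ n + 2) + 1 + p.eval (q.eval (n + 2 ^ n + 2))) ?_
      fun x hx => h x ?_
    · have := eval_mono p hc
      omega
    · simp only [Set.mem_ofPred_eq]
      omega
  · intro z hz hz1
    simp only [Set.mem_ofPred_eq] at hz1 ⊢
    rw [← hz1]
    symm
    refine hqm A A' _ (2 * (code n j).length + 1 + bl.eval ((LbP q p).eval (n + 2 ^ n))) ?_
      fun x hx => h x ?_
    · rw [length_pairBits]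
      omega
    · simp only [Set.mem_ofPred_eq]
      omega

/-! ### The key inequality -/

theorem small_set (n k : ℕ) (hk : 1 ≤ k) : ∃ (S : Finset ℕ) (μ : ℕ), μ ^ k < 2 ^ n ∧
    S.card ≤ μ + 1 ∧ (∀ m ∈ S, m ≤ μ) ∧ ∀ m, m ∈ S ↔ m ^ k < 2 ^ n := by
  classical
  have hS : ∀ m, m ∈ (Finset.range (2 ^ n)).filter (fun m => m ^ k < 2 ^ n) ↔ m ^ k < 2 ^ n := by
    intro m
    rw [Finset.mem_filter, Finset.mem_range]
    refine ⟨fun h => h.2, fun h => ⟨(Nat.le_self_pow (by omega) m).trans_lt h, h⟩⟩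
  have h0 : 0 ∈ (Finset.range (2 ^ n)).filter (fun m => m ^ k < 2 ^ n) := by
    rw [hS, zero_pow (by omega)]
    positivity
  obtain ⟨μ, hμ, hmax⟩ := Finset.exists_max_image _ (fun m : ℕ => m) ⟨0, h0⟩
  refine ⟨_, μ, (hS μ).1 hμ, ?_, hmax, hS⟩
  refine (Finset.card_le_card (t := Finset.range (μ + 1)) fun m hm => ?_).trans (by simp)
  rw [Finset.mem_range]
  have := hmax m hm
  omega

theorem key_R (M V : Alg) (p : Polynomial ℕ) : ∃ kk : Alg × Polynomial ℕ → ℕ,
    (∀ r, 1 ≤ kk r) ∧ ∀ R' : Finset (Alg × Polynomial ℕ), ∃ n0, ∀ n ≥ n0, ∀ j, 4 ≤ j → j ≤ n →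
    ∀ t < n, ∀ L : List (List Bool),
    4 * prob (cyl t L ∩ (BadS n j ∩ ErrB M V p n j)) < prob (cyl t L ∩ BadS n j) →
    prob (cyl t L ∩ {A | ∃ r ∈ R', A ∈ GoodR M V p r.1 r.2 (kk r) n j}) ≤
      (1 / 2) * prob (cyl t L) := by
  classical
  choose bl hbl using fun r : Alg × Polynomial ℕ => r.1.out_length
  choose kk hk1 hk2 using fun r : Alg × Polynomial ℕ => growth (DP M V p r.1 r.2 (bl r))
  refine ⟨kk, hk1, fun R' => ?_⟩
  obtain ⟨bP, hbP⟩ := loc_ErrP M
  obtain ⟨bF, hbF⟩ := loc_ErrF V p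
  choose bG hbG using fun r : Alg × Polynomial ℕ => loc_GoodR M V p r.1 r.2 (hk1 r)
  obtain ⟨qM, hqM⟩ := M.out_local
  choose n1 hn1 using fun r : Alg × Polynomial ℕ => hk2 r (16 * R'.card + 1)
  refine ⟨R'.sup n1 + 1, fun n hn j _ hjn t ht L hs => ?_⟩
  have hnr : ∀ r ∈ R', n1 r ≤ n := fun r hr =>
    (Finset.le_sup (f := n1) hr).trans (by omega)
  have hn' : 1 ≤ n := by omega
  choose S μ hμ1 hμ2 hμ3 hS using fun r : Alg × Polynomial ℕ => small_set n (kk r) (hk1 r)
  have hD : ∀ r ∈ R', (16 * R'.card + 1) * (DP M V p r.1 r.2 (bl r)).eval (n + μ r) ≤ 2 ^ n :=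
    fun r hr => hn1 r n (hnr r hr) _ (hμ1 r)
  have hD1 : ∀ r ∈ R', (DP M V p r.1 r.2 (bl r)).eval (n + μ r) ≤ 2 ^ n := fun r hr =>
    (Nat.le_mul_of_pos_left _ (by omega)).trans (hD r hr)
  set b : ℕ := bP.eval (2 ^ n) + bF.eval (2 ^ n) + ∑ r ∈ R', bG r n j + (3 * n + 2) with hb
  have hbG' : ∀ r ∈ R', bG r n j ≤ b := by
    intro r hr
    have : bG r n j ≤ ∑ r ∈ R', bG r n j :=
      Finset.single_le_sum (f := fun r => bG r n j) (fun _ _ => Nat.zero_le _) hr
    omega
  have ht0 : 16 * ∑ r ∈ R', (DP M V p r.1 r.2 (bl r)).eval (n + μ r) ≤ 2 ^ n := by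
    rcases R'.eq_empty_or_nonempty with rfl | hne
    · simp
    · have hpos : 0 < R'.card := hne.card_pos
      refine Nat.le_of_mul_le_mul_left ?_ hpos
      calc R'.card * (16 * ∑ r ∈ R', (DP M V p r.1 r.2 (bl r)).eval (n + μ r))
          = ∑ r ∈ R', 16 * R'.card * (DP M V p r.1 r.2 (bl r)).eval (n + μ r) := by
            rw [← Finset.mul_sum]; ring
        _ ≤ ∑ _r ∈ R', 2 ^ n := Finset.sum_le_sum fun r hr =>
            (Nat.mul_le_mul_right _ (by omega)).trans (hD r hr)
        _ = R'.card * 2 ^ n := by rw [Finset.sum_const, smul_eq_mul]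
  refine keyS_core hn' ht L (finite_length_le b)
    (Z := {A | ∃ r ∈ R', A ∈ GoodR M V p r.1 r.2 (kk r) n j})
    (E := ErrB M V p n j) ?_ ?_ ?_ (pos_mem_blkS hjn (by omega)) _ ht0 ?_ hs
  · intro A A' hA
    simp only [Set.mem_ofPred_eq]
    refine exists_congr fun r => and_congr_right fun hr => ?_
    exact hbG r n j A A' fun x hx => hA x (le_trans hx (hbG' r hr))
  · intro A A' hA
    exact or_congr (hbP n j A A' fun x hx => hA x (by
        simp only [Set.mem_ofPred_eq] at hx ⊢; omega))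
      (hbF n A A' fun x hx => hA x (by simp only [Set.mem_ofPred_eq] at hx ⊢; omega))
  · intro x hx
    simp only [Set.mem_ofPred_eq] at hx ⊢
    omega
  · intro B _ hBE
    have hBP : B ∉ ErrP M n j := fun h => hBE (Or.inl h)
    have hBF : B ∉ ErrF V p n := fun h => hBE (Or.inr h)
    have hcle : ∀ r : Alg × Polynomial ℕ, ∀ m ∈ S r, r.2.eval (n + 2 + m) ≤
        r.2.eval (n + μ r + 2) := fun r m hm => eval_mono _ (by have := hμ3 r m hm; omega)
    -- the results
    have hloc : ∀ (r : Alg × Polynomial ℕ) (m : ℕ), ∃ (Q : Finset (List Bool)) (z : List Bool),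
        (r ∈ R' → m ∈ S r → Q.card ≤ r.2.eval (n + μ r + 2) * (r.1.p.eval
          ((LbP r.2 p).eval (n + μ r)) + V.p.eval (2 * r.2.eval (n + μ r + 2) + 1 +
          p.eval (r.2.eval (n + μ r + 2)))) ∧
        z.length ≤ (bl r).eval ((LbP r.2 p).eval (n + μ r)) ∧
        ∀ A' : Oracle, (∀ q ∈ Q, A' q = B q) → ∀ X : Set (List Bool),
          Run (TT V p A') (FF r.1 A') (pairBits (List.replicate (n + 2) true)
            (List.replicate m true)) (r.2.eval (n + 2 + m)) X (r.2.eval (n + 2 + m)) [] →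
            z ∈ X) := by
      intro r m
      by_cases hr : r ∈ R' ∧ m ∈ S r
      · obtain ⟨hr, hm⟩ := hr
        obtain ⟨Q, z, h1, h2, h3⟩ := run_local r.1 V p (bl r) (hbl r)
          (pairBits (List.replicate (n + 2) true) (List.replicate m true))
          (r.2.eval (n + 2 + m)) ((LbP r.2 p).eval (n + μ r)) B (by
            intro u hu
            by_contra hcon
            refine hBF ⟨u, ?_, fun y hy hy2 => hcon ⟨y, hy, hy2⟩⟩
            have h4 := hD1 r hr
            rw [eval_DP] at h4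
            have h5 := hcle r m hm
            omega)
          (r.2.eval (n + 2 + m)) [] (start_bound r.2 p (by have := hμ3 r m hm; omega))
        refine ⟨Q, z, fun _ _ => ⟨h1.trans (Nat.mul_le_mul (hcle r m hm) ?_), h2, h3⟩⟩
        have h4 := eval_mono p (hcle r m hm)
        exact Nat.add_le_add_left (eval_mono _ (by have := hcle r m hm; omega)) _
      · exact ⟨∅, [], fun h1 h2 => absurd ⟨h1, h2⟩ hr⟩
    choose Q z hQz using hloc
    choose Q' hQ' using fun u : List Bool => hqM B u
    obtain ⟨T, hT, hT'⟩ := touch (blkS n j) n (R'.biUnion fun r => (S r).biUnion fun m =>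
      Q r m ∪ Q' (pairBits (code n j) (z r m)))
    have hU : ∀ r ∈ R', ∀ m ∈ S r, (pairBits (code n j) (z r m)).length ≤
        (UP r.2 p (bl r)).eval (n + μ r) := by
      intro r hr m hm
      have h1 := (hQz r m hr hm).2.1
      rw [length_pairBits, length_code, eval_UP]
      omega
    refine ⟨T, hT.trans ?_, ?_⟩
    · refine Finset.card_biUnion_le.trans (Finset.sum_le_sum fun r hr => ?_)
      refine Finset.card_biUnion_le.trans ?_
      calc ∑ m ∈ S r, (Q r m ∪ Q' (pairBits (code n j) (z r m))).card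
          ≤ ∑ _m ∈ S r, (costP M V p r.1 r.2 (bl r)).eval (n + μ r) := by
            refine Finset.sum_le_sum fun m hm => (Finset.card_union_le _ _).trans ?_
            rw [eval_costP]
            exact Nat.add_le_add (hQz r m hr hm).1
              ((hQ' _).1.trans (eval_mono _ (hU r hr m hm)))
        _ = (S r).card * (costP M V p r.1 r.2 (bl r)).eval (n + μ r) := by
            rw [Finset.sum_const, smul_eq_mul]
        _ ≤ (n + μ r + 1) * (costP M V p r.1 r.2 (bl r)).eval (n + μ r) :=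
            Nat.mul_le_mul_right _ ((hμ2 r).trans (by omega))
        _ ≤ (DP M V p r.1 r.2 (bl r)).eval (n + μ r) := by
            rw [eval_DP]; omega
    · intro h hh hd hZ
      obtain ⟨r, hr, m, hm, hrun⟩ := hZ
      have hmS : m ∈ S r := (hS r m).2 hm
      have hsame := hT' h hh hd B
      have hz := (hQz r m hr hmS).2.2 (plant (allSpots n h) B) (fun q hq => hsame q
        (Finset.mem_biUnion.2 ⟨r, hr, Finset.mem_biUnion.2 ⟨m, hmS,
          Finset.mem_union_left _ hq⟩⟩)) _ hrun
      simp only [Set.mem_ofPred_eq] at hz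
      have e2 : M.out (plant (allSpots n h) B) (pairBits (code n j) (z r m)) =
          M.out B (pairBits (code n j) (z r m)) :=
        (hQ' _).2.2 _ fun q hq => hsame q
          (Finset.mem_biUnion.2 ⟨r, hr, Finset.mem_biUnion.2 ⟨m, hmS,
            Finset.mem_union_right _ hq⟩⟩)
      rw [e2] at hz
      refine hBP ⟨_, (hU r hr m hmS).trans ?_, hz⟩
      have h4 := hD1 r hr
      rw [eval_DP] at h4
      omega

end Pool.Agent.TH755.PO
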