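import Pool.Agent.TH755.PO.Key

/-!
# Proof systems for `NP`-hard sets relative to a random oracle: translations are exponential
-/

set_option autoImplicit false

namespace Pool.Agent.TH755.PO

open MeasureTheory Pool.Agent.NPC Pool.Agent.H628R3.RO

/-- the core, for algorithms which are proof systems for the statements about the blocks, and for
total search problems -/
theorem ae_R (M V : Alg) (p : Polynomial ℕ) : ∃ (b : Polynomial ℕ) (kk : Alg × Polynomial ℕ → ℕ),
    Check BadS (ErrB M V p) b ∧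
    ∀ᵐ A ∂randomOracle, (∀ n j, A ∉ BadS n j ∩ ErrB M V p n j) → ∃ (t : ℕ) (L : List (List Bool)),
      (∃ i0, ∀ i ≥ i0, A ∉ BadS (Tt b t i) (lev BadS (ErrB M V p) t L (Tt b t) i)) ∧
      ∀ (r : Alg × Polynomial ℕ) (i0 : ℕ), ∃ i ≥ i0,
        A ∉ GoodR M V p r.1 r.2 (kk r) (Tt b t i) (lev BadS (ErrB M V p) t L (Tt b t) i) := by
  have := countable_poly
  obtain ⟨b, hc⟩ := check_B M V p
  obtain ⟨kk, hk1, hkey⟩ := key_R M V p
  choose b' hb' using fun r : Alg × Polynomial ℕ => loc_GoodR M V p r.1 r.2 (hk1 r)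
  refine ⟨b, kk, hc, ?_⟩
  exact core_one (R := Alg × Polynomial ℕ) BadS (ErrB M V p)
    (fun r n j => GoodR M V p r.1 r.2 (kk r) n j) spotsS
    (fun n j => lt_length_spotsS) (fun n n' j j' h => disjoint_spotsS n n' j j' h)
    loc_BadS (fun n j => measurableSet_of_loc (finite_length_le _) (hc.locErr n j))
    (fun r n j => measurableSet_of_loc (finite_length_le _) (hb' r n j))
    prob_BadS_le prob_BadS_ge hkey
    (fun t _ => Tt b t) (fun t _ => strictMono_Tt b t) (fun t _ => le_rfl)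

/-- A larger set of results. -/
theorem Run.mono {T : List Bool → List Bool → Prop} {F : List Bool → List Bool} {x : List Bool}
    {c : ℕ} {X X' : Set (List Bool)} (hX : ∀ z ∈ X, z ∈ X') :
    ∀ (r : ℕ) (a : List Bool), Run T F x c X r a → Run T F x c X' r a := by
  intro r
  induction r with
  | zero => intro a h; exact h
  | succ r ih =>
    intro a h
    rcases hF : F (pairBits x a) with _ | ⟨_ | _, w⟩
    · simp only [Run, hF] at h
    · simp only [Run, hF] at h ⊢
      exact ⟨h.1, fun y hy => ih _ (h.2 y hy)⟩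
    · simp only [Run, hF] at h ⊢
      exact hX w h

/-- With probability one, for every `NP`-hard set, every proof system `P` for this set and every
total `NP` search problem `T`, there is a proof system `Q` for this set whose proofs of length `n`
need exponential time for their translation into proofs of `P`, even with calls to `T`. -/
theorem main_R : ∀ᵐ A ∂randomOracle, ∀ L : Set (List Bool), NPHardRel A L →
    ∀ P, IsProofSystem A L P → ∀ T, IsTFNP A T → ∃ Q, IsProofSystem A L Q ∧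
      ∀ F, IsFP A F → ∀ q : Polynomial ℕ, ∃ k : ℕ, ∀ N, ∃ n ≥ N, ∀ m : ℕ,
        Run T F (pairBits (List.replicate n true) (List.replicate m true)) (q.eval (n + m))
          {v | P v = Q (List.replicate n true)} (q.eval (n + m)) [] → 2 ^ n ≤ m ^ k := by
  have := countable_poly
  choose b kk hc hcore using fun g : Alg × Alg × Polynomial ℕ => ae_R g.1 g.2.1 g.2.2
  have hall : ∀ᵐ A ∂randomOracle, ∀ g : Alg × Alg × Polynomial ℕ,
      (∀ n j, A ∉ BadS n j ∩ ErrB g.1 g.2.1 g.2.2 n j) →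
      ∃ (t : ℕ) (L : List (List Bool)),
      (∃ i0, ∀ i ≥ i0, A ∉ BadS (Tt (b g) t i)
        (lev BadS (ErrB g.1 g.2.1 g.2.2) t L (Tt (b g) t) i)) ∧
      ∀ (r : Alg × Polynomial ℕ) (i0 : ℕ), ∃ i ≥ i0,
        A ∉ GoodR g.1 g.2.1 g.2.2 r.1 r.2 (kk g r) (Tt (b g) t i)
          (lev BadS (ErrB g.1 g.2.1 g.2.2) t L (Tt (b g) t) i) := ae_all_iff.2 hcore
  filter_upwards [hall] with A hA L hL P hP T hT
  obtain ⟨F₀, hF₀, hr⟩ := hL _ (isNP_LS A)
  set L₀ : Set (List Bool) := {x | x = [] ∨ A ∉ BadS (siz x) (lvl x)} with hL₀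
  have h0 : [] ∈ L₀ := Or.inl rfl
  have hP₀ : IsProofSystem A L₀ (backSys F₀ P []) := backSys_isProofSystem hP hF₀ hr h0
  obtain ⟨M, hM⟩ := hP₀.1
  obtain ⟨⟨V₀, p, ⟨V, hV⟩, hiff⟩, htot⟩ := hT
  have hTT : T = TT V p A := by
    funext u y
    apply propext
    rw [hiff, TT, hV, Option.some.injEq]
  obtain ⟨t, S, ⟨i1, h1⟩, h2⟩ := hA (M, V, p) (by
    rintro n j ⟨h3, ⟨u, _, h4⟩ | ⟨x, _, h4⟩⟩
    · rw [hM u, Option.some.injEq] at h4
      have h5 : code n j ∈ L₀ := by
        rw [← hP₀.2]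
        exact ⟨u, h4⟩
      rcases h5 with h5 | h5
      · exact code_ne_nil n j h5
      · rw [siz_code, lvl_code] at h5
        exact h5 h3
    · obtain ⟨y, hy⟩ := htot x
      rw [hTT] at hy
      exact h4 y hy.1 hy.2)
  simp only at h1 h2
  set f := schK BadS (ErrB M V p) (b (M, V, p)) t S (Tt (b (M, V, p)) t i1) with hf
  have hfn : ∀ n j, f n = some j → j ≤ n := fun n j h => schK_le h
  have hfL : ∀ n j, f n = some j → code n j ∈ L₀ := by
    intro n j h
    right
    rw [siz_code, lvl_code]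
    obtain ⟨h3, i, rfl, rfl⟩ := eq_of_schK h
    exact h1 i ((strictMono_Tt (b (M, V, p)) t).le_iff_le.1 h3)
  have hpf : Poly (fun x : List Bool => f x.length) := p_schK (hc (M, V, p)) t S _
  have hQ₀ := isProofSystem_newSys hpf hfn hP₀ h0 hfL
  have hQ := addSys_isProofSystem hP hF₀ hr hQ₀
  refine ⟨_, hQ, fun F hF q => ?_⟩
  obtain ⟨H, hH⟩ := hF
  have hFF : F = FF H A := by
    funext s
    rw [FF, hH]
    rfl
  refine ⟨kk (M, V, p) (H, q) + 2, fun N => ?_⟩
  obtain ⟨i, hi, h3⟩ := h2 (H, q) (max i1 N)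
  set n := Tt (b (M, V, p)) t i with hn
  set j := lev BadS (ErrB M V p) t S (Tt (b (M, V, p)) t) i with hj
  have hTi : t + 4 + i ≤ n := add_le_Tt (b (M, V, p)) t i
  have hi1 : i1 ≤ i := le_trans (le_max_left _ _) hi
  have hiN : N ≤ i := le_trans (le_max_right _ _) hi
  have hfi : f n = some j := schK_Tt ((strictMono_Tt (b (M, V, p)) t).monotone hi1)
  have hjn : j ≤ n := hfn _ _ hfi
  refine ⟨n + 2, by omega, fun m hm => ?_⟩
  have e1 : addSys F₀ P (newSys f (backSys F₀ P [])) (List.replicate (n + 2) true) =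
      F₀ (code n j) := by
    have e0 : List.replicate (n + 2) true = true :: true :: List.replicate n true := rfl
    rw [e0, addSys_true, newSys_true, pick_some (j := j)]
    · rw [List.length_replicate]
    · rw [List.length_replicate]; exact hfi
    · rw [List.length_replicate]; exact hjn
  rw [e1, hTT, hFF] at hm
  have h4 : ¬ m ^ (kk (M, V, p) (H, q)) < 2 ^ n := fun h5 =>
    h3 ⟨m, h5, Run.mono (fun v hv => by
      simp only [Set.mem_ofPred_eq] at hv ⊢
      rw [hM, backSys_pair (x₀ := []) hv]) _ _ hm⟩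
  have h5 : 2 ≤ m := by
    by_contra hcon
    have h6 : m ^ (kk (M, V, p) (H, q)) ≤ 1 ^ (kk (M, V, p) (H, q)) :=
      Nat.pow_le_pow_left (by omega) _
    rw [one_pow] at h6
    have h7 : n < 2 ^ n := Nat.lt_two_pow_self
    omega
  calc 2 ^ (n + 2) = 2 ^ n * 2 ^ 2 := pow_add _ _ _
    _ ≤ m ^ (kk (M, V, p) (H, q)) * m ^ 2 :=
        Nat.mul_le_mul (by omega) (Nat.pow_le_pow_left h5 2)
    _ = m ^ (kk (M, V, p) (H, q) + 2) := (pow_add _ _ _).symm

end Pool.Agent.TH755.PO
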