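import Pool.Agent.H628R3.RO.F1
import Pool.Agent.H628R3.RO.F3

/-!
# Computations with adaptive calls to a search problem

`Run T F x c X r a`: the computation on input `x` whose next action is computed by `F` from `x` and
from the list `a` of the solutions received so far, with at most `r` further rounds and with calls of
the search problem `T` for instances of length at most `c`, ends with a result in `X`, whatever the
solutions are.
-/

set_option autoImplicit false

namespace Pool.Agent.TH755.PO

open MeasureTheory Pool.Agent.NPC Pool.Agent.H628R3.RO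

/-- The computation on input `x` whose next action is computed by `F` from `x` and the list `a` of
the solutions received so far: `false :: u` is a call for a solution of the instance `u` of `T`,
`true :: z` stops with the result `z`. It ends within `r` rounds, all calls have length at most `c`,
and the result is in `X`, for all possible solutions of the instances. -/
def Run (T : List Bool → List Bool → Prop) (F : List Bool → List Bool) (x : List Bool) (c : ℕ)
    (X : Set (List Bool)) : ℕ → List Bool → Prop
  | 0, _ => False
  | r + 1, a =>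
    match F (pairBits x a) with
    | [] => False
    | true :: z => z ∈ X
    | false :: u => u.length ≤ c ∧ ∀ y, T u y → Run T F x c X r (pairBits y a)

/-- the search problem given by an algorithm and a polynomial -/
def TT (V : Alg) (p : Polynomial ℕ) (A : Oracle) (u y : List Bool) : Prop :=
  y.length ≤ p.eval u.length ∧ V.out A (pairBits u y) = some [true]

/-- the function given by an algorithm -/
def FF (H : Alg) (A : Oracle) (s : List Bool) : List Bool := (H.out A s).getD []

theorem length_FF {H : Alg} {bl : Polynomial ℕ}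
    (hbl : ∀ (A : Oracle) (x z : List Bool), H.out A x = some z → z.length ≤ bl.eval x.length)
    (A : Oracle) (s : List Bool) {N : ℕ} (hs : s.length ≤ N) : (FF H A s).length ≤ bl.eval N := by
  unfold FF
  cases h : H.out A s with
  | none => simp
  | some z => exact (hbl A s z h).trans (eval_mono bl hs)

/-- The result of the computation is determined by few answers of the oracle. -/
theorem run_local (H V : Alg) (p bl : Polynomial ℕ)
    (hbl : ∀ (A : Oracle) (x z : List Bool), H.out A x = some z → z.length ≤ bl.eval x.length)
    (x : List Bool) (c Lb : ℕ) (B : Oracle)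
    (htot : ∀ u : List Bool, u.length ≤ c → ∃ y, TT V p B u y) :
    ∀ (r : ℕ) (a : List Bool), 2 * x.length + 1 + a.length + r * (2 * p.eval c + 1) ≤ Lb →
      ∃ (Q : Finset (List Bool)) (z : List Bool),
        Q.card ≤ r * (H.p.eval Lb + V.p.eval (2 * c + 1 + p.eval c)) ∧ z.length ≤ bl.eval Lb ∧
        ∀ A' : Oracle, (∀ q ∈ Q, A' q = B q) → ∀ X : Set (List Bool),
          Run (TT V p A') (FF H A') x c X r a → z ∈ X := by
  classical
  obtain ⟨qh, hqh⟩ := H.out_local
  obtain ⟨qv, hqv⟩ := V.out_local
  intro r
  induction r with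
  | zero => intro a _; exact ⟨∅, [], by simp, by simp, fun A' _ X h => h.elim⟩
  | succ r ih =>
    intro a ha
    have hs : (pairBits x a).length ≤ Lb := by
      rw [length_pairBits]
      have : 0 ≤ (r + 1) * (2 * p.eval c + 1) := Nat.zero_le _
      omega
    obtain ⟨Q1, hQ1c, -, hQ1⟩ := hqh B (pairBits x a)
    have hQ1c' : Q1.card ≤ H.p.eval Lb := hQ1c.trans (eval_mono _ hs)
    have hone : H.p.eval Lb ≤ (r + 1) * (H.p.eval Lb + V.p.eval (2 * c + 1 + p.eval c)) := by
      nlinarith
    have hsame : ∀ A' : Oracle, (∀ q ∈ Q1, A' q = B q) →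
        FF H A' (pairBits x a) = FF H B (pairBits x a) := by
      intro A' hA'
      unfold FF
      rw [hQ1 A' hA']
    have hlen := length_FF hbl B (pairBits x a) hs
    rcases hF : FF H B (pairBits x a) with _ | ⟨b, w⟩
    · refine ⟨Q1, [], hQ1c'.trans hone, by simp, fun A' hA' X h => ?_⟩
      simp only [Run, hsame A' hA', hF] at h
    · rw [hF, List.length_cons] at hlen
      cases b with
      | true =>
        refine ⟨Q1, w, hQ1c'.trans hone, by omega, fun A' hA' X h => ?_⟩
        simp only [Run, hsame A' hA', hF] at h
        exact h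
      | false =>
        by_cases hu : w.length ≤ c
        · obtain ⟨y, hy⟩ := htot w hu
          have hyl : y.length ≤ p.eval c := hy.1.trans (eval_mono p hu)
          obtain ⟨Q2, hQ2c, -, hQ2⟩ := hqv B (pairBits w y)
          obtain ⟨Q3, z, hQ3c, hz, hQ3⟩ := ih (pairBits y a) (by
            rw [length_pairBits]
            nlinarith)
          have hQ2c' : Q2.card ≤ V.p.eval (2 * c + 1 + p.eval c) := by
            refine hQ2c.trans (eval_mono _ ?_)
            rw [length_pairBits]
            omega
          refine ⟨Q1 ∪ Q2 ∪ Q3, z, ?_, hz, fun A' hA' X h => ?_⟩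
          · have h1 := Finset.card_union_le (Q1 ∪ Q2) Q3
            have h2 := Finset.card_union_le Q1 Q2
            have h3 : (r + 1) * (H.p.eval Lb + V.p.eval (2 * c + 1 + p.eval c)) =
              r * (H.p.eval Lb + V.p.eval (2 * c + 1 + p.eval c)) +
              (H.p.eval Lb + V.p.eval (2 * c + 1 + p.eval c)) := by ring
            omega
          · have hA1 : ∀ q ∈ Q1, A' q = B q := fun q hq =>
              hA' q (Finset.mem_union_left _ (Finset.mem_union_left _ hq))
            have hA2 : ∀ q ∈ Q2, A' q = B q := fun q hq =>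
              hA' q (Finset.mem_union_left _ (Finset.mem_union_right _ hq))
            have hA3 : ∀ q ∈ Q3, A' q = B q := fun q hq => hA' q (Finset.mem_union_right _ hq)
            simp only [Run, hsame A' hA1, hF] at h
            refine hQ3 A' hA3 X (h.2 y ⟨hy.1, ?_⟩)
            rw [hQ2 A' hA2]
            exact hy.2
        · refine ⟨Q1, [], hQ1c'.trans hone, by simp, fun A' hA' X h => ?_⟩
          simp only [Run, hsame A' hA', hF] at h
          exact absurd h.1 hu

/-- The computation depends only on the outputs of the algorithms on short strings. -/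
theorem run_imp (H V : Alg) (p bl : Polynomial ℕ)
    (hbl : ∀ (A : Oracle) (x z : List Bool), H.out A x = some z → z.length ≤ bl.eval x.length)
    (x : List Bool) (c Lb : ℕ) (A A' : Oracle)
    (hH : ∀ s : List Bool, s.length ≤ Lb → H.out A s = H.out A' s)
    (hV : ∀ s : List Bool, s.length ≤ 2 * c + 1 + p.eval c → V.out A s = V.out A' s)
    (X X' : Set (List Bool)) (hX : ∀ z : List Bool, z.length ≤ bl.eval Lb → z ∈ X → z ∈ X') :
    ∀ (r : ℕ) (a : List Bool), 2 * x.length + 1 + a.length + r * (2 * p.eval c + 1) ≤ Lb →
      Run (TT V p A) (FF H A) x c X r a → Run (TT V p A') (FF H A') x c X' r a := by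
  intro r
  induction r with
  | zero => intro a _ h; exact h
  | succ r ih =>
    intro a ha h
    have hs : (pairBits x a).length ≤ Lb := by
      rw [length_pairBits]
      have : 0 ≤ (r + 1) * (2 * p.eval c + 1) := Nat.zero_le _
      omega
    have hsame : FF H A' (pairBits x a) = FF H A (pairBits x a) := by
      unfold FF
      rw [hH _ hs]
    have hlen := length_FF hbl A (pairBits x a) hs
    rcases hF : FF H A (pairBits x a) with _ | ⟨b, w⟩
    · simp only [Run, hF] at h
    · rw [hF, List.length_cons] at hlen
      cases b with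
      | true =>
        simp only [Run, hF] at h
        simp only [Run, hsame, hF]
        exact hX w (by omega) h
      | false =>
        simp only [Run, hF] at h
        simp only [Run, hsame, hF]
        refine ⟨h.1, fun y hy => ?_⟩
        have hyl : y.length ≤ p.eval c := hy.1.trans (eval_mono p h.1)
        refine ih (pairBits y a) (by rw [length_pairBits]; nlinarith) (h.2 y ⟨hy.1, ?_⟩)
        rw [hV _ (by rw [length_pairBits]; omega)]
        exact hy.2

/-- Polynomials of subexponentially small numbers. -/
theorem growth (D : Polynomial ℕ) : ∃ k : ℕ, 1 ≤ k ∧ ∀ c : ℕ, ∃ n0, ∀ n ≥ n0, ∀ m : ℕ,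
    m ^ k < 2 ^ n → c * D.eval (n + m) ≤ 2 ^ n := by
  induction D using Polynomial.induction_on' with
  | add D E hD hE =>
    obtain ⟨k, hk, h1⟩ := hD
    obtain ⟨l, hl, h2⟩ := hE
    refine ⟨k + l, by omega, fun c => ?_⟩
    obtain ⟨a, ha⟩ := h1 (2 * c)
    obtain ⟨b, hb⟩ := h2 (2 * c)
    refine ⟨max a b, fun n hn m hm => ?_⟩
    have hpow : ∀ i, 1 ≤ i → i ≤ k + l → m ^ i < 2 ^ n := by
      intro i hi hi2
      rcases Nat.eq_zero_or_pos m with rfl | hm0
      · rw [zero_pow (by omega)]
        positivity
      · exact (Nat.pow_le_pow_right hm0 hi2).trans_lt hm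
    have h3 := ha n (le_trans (le_max_left _ _) hn) m (hpow k hk (by omega))
    have h4 := hb n (le_trans (le_max_right _ _) hn) m (hpow l hl (by omega))
    rw [Polynomial.eval_add]
    nlinarith
  | monomial d a =>
    refine ⟨2 * (d + 1), by omega, fun c => ?_⟩
    obtain ⟨n1, hn1⟩ := mul_poly_le_two_pow (Polynomial.X ^ d) (2 * (c * a * 2 ^ d))
    refine ⟨max n1 ((2 * (c * a * 2 ^ d)) ^ 2), fun n hn m hm => ?_⟩
    have h1 := hn1 n (le_trans (le_max_left _ _) hn)
    simp only [Polynomial.eval_pow, Polynomial.eval_X] at h1
    have h2 : (2 * (c * a * 2 ^ d)) ^ 2 ≤ 2 ^ n :=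
      (le_trans (le_max_right _ _) hn).trans Nat.lt_two_pow_self.le
    have h3 : m ^ (2 * d) ≤ 2 ^ n := by
      rcases Nat.eq_zero_or_pos m with rfl | hm0
      · rcases Nat.eq_zero_or_pos d with rfl | hd
        · simp [Nat.one_le_two_pow]
        · rw [zero_pow (by omega)]
          positivity
      · exact (Nat.pow_le_pow_right hm0 (by omega)).trans hm.le
    have h4 : 2 * (c * a * 2 ^ d) * m ^ d ≤ 2 ^ n := by
      have h5 : (2 * (c * a * 2 ^ d) * m ^ d) ^ 2 ≤ (2 ^ n) ^ 2 := by
        calc (2 * (c * a * 2 ^ d) * m ^ d) ^ 2 = (2 * (c * a * 2 ^ d)) ^ 2 * m ^ (2 * d) := by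
              rw [mul_pow, ← pow_mul, mul_comm d 2]
          _ ≤ 2 ^ n * 2 ^ n := Nat.mul_le_mul h2 h3
          _ = (2 ^ n) ^ 2 := by ring
      exact (Nat.pow_le_pow_iff_left (by norm_num)).1 h5
    rw [Polynomial.eval_monomial]
    have h6 : (n + m) ^ d ≤ 2 ^ d * (n ^ d + m ^ d) := by
      calc (n + m) ^ d ≤ (2 * max n m) ^ d := by
            apply Nat.pow_le_pow_left
            have := le_max_left n m
            have := le_max_right n m
            omega
        _ = 2 ^ d * (max n m) ^ d := mul_pow _ _ _
        _ ≤ 2 ^ d * (n ^ d + m ^ d) := by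
            apply Nat.mul_le_mul_left
            rcases le_total n m with h | h
            · rw [max_eq_right h]; omega
            · rw [max_eq_left h]; omega
    have h7 : c * (a * (n + m) ^ d) ≤ c * a * 2 ^ d * n ^ d + c * a * 2 ^ d * m ^ d := by
      calc c * (a * (n + m) ^ d) ≤ c * (a * (2 ^ d * (n ^ d + m ^ d))) :=
            Nat.mul_le_mul_left _ (Nat.mul_le_mul_left _ h6)
        _ = _ := by ring
    have h8 : 2 * (c * a * 2 ^ d) * n ^ d = 2 * (c * a * 2 ^ d * n ^ d) := by ring
    have h9 : 2 * (c * a * 2 ^ d) * m ^ d = 2 * (c * a * 2 ^ d * m ^ d) := by ring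
    rw [h8] at h1
    rw [h9] at h4
    omega

end Pool.Agent.TH755.PO
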